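import Pool.Agent.H16.TK.Stmt2

/-!
EXN: big flaps can be replaced by new ones.
-/

set_option autoImplicit false

open Set

namespace Pool.Agent.TK

theorem pf_EXN {C : Type} [MeasurableSpace C] {c0 : C} (hTRA : TRA C c0) (hINF : INF C) :
    EXN C c0 := by
  intro X b H M hMX a D hD hns T hT hTv
  have hM : Valid c0 M := H.val M hMX
  have hom : RLe C om b := ((RLe.lim om).trans (RLe.lim (Rk.lim om))).trans H.base
  have hDinf : D.Infinite := by
    by_contra hfin
    rw [Set.not_infinite] at hfin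
    apply hns
    refine Rig.small (fun N c v _ _ hF => ?_)
    exact (hINF _ _ _ _ _ _ (hF.mono hom)).2 hfin
  have h1 : ∃ (N : St C) (c : List ℕ) (v : ℕ), Valid c0 N ∧ v ∉ c ∧
      FB b M a D N c (cp N (ms c) v) ∧ ∀ t ∈ T, ¬ FI N c (cp N (ms c) v) t.1 t.2.1 t.set := by
    by_contra hcon
    apply hns
    refine ⟨T, hT, hTv, ?_⟩
    intro N c v hN hv hF
    by_contra h2
    push Not at h2
    exact hcon ⟨N, c, v, hN, hv, hF, h2⟩
  obtain ⟨N, c, v, hN, hv, hF, hnew⟩ := h1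
  have hinf2 : (cp N (ms c) v).Infinite := ((hINF _ _ _ _ _ _ (hF.mono hom)).1).1 hDinf
  obtain ⟨R, hR, hRcp, hRFI, hRPI⟩ := hTRA M N a c D (cp N (ms c) v) hM hN (isCp_cp hv) hinf2
    hDinf hD.disj hF.1 (bf_PI hF.2)
  refine ⟨R, hR, hRcp, hRPI, ?_, ?_⟩
  · have h2 : FB b M a D R a D := hF.trans (hRFI.fb b).symm
    rw [dg_eq_zip]
    exact h2.2
  · intro t ht hFI
    exact hnew t ht (hRFI.symm.trans hFI)

end Pool.Agent.TK
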