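import Pool.Agent.H76.TK.LEVEL

/-!
FINB: only finitely many big components behind a finite tuple.
-/

set_option autoImplicit false

open Set

namespace Pool.Agent.TK

section transport
variable {C : Type} {c0 : C}

lemma conn_transport {M M' : St C} (h : Equiv.Perm ℕ)
    (h1 : ∀ u v, M.1 u v = M'.1 (h u) (h v)) {A : Set ℕ} {u v : ℕ} (hc : Conn M A u v) :
    Conn M' (h '' A) (h u) (h v) := by
  obtain ⟨ha, hb⟩ := hc
  induction hb with
  | refl => exact Conn.refl (by rwa [h.injective.mem_set_image])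
  | tail _ hs ih =>
    refine ih.step ?_ ?_
    · rw [← h1]; exact hs.1
    · rw [h.injective.mem_set_image]; exact hs.2

lemma cp_transport {M M' : St C} (h : Equiv.Perm ℕ)
    (h1 : ∀ u v, M.1 u v = M'.1 (h u) (h v)) (A : Set ℕ) (v : ℕ) :
    h '' cp M A v = cp M' (h '' A) (h v) := by
  ext y
  constructor
  · rintro ⟨u, hu, rfl⟩
    exact conn_transport h h1 hu
  · intro hy
    have h2 : ∀ u v, M'.1 u v = M.1 (h.symm u) (h.symm v) := by
      intro u v
      rw [h1]; simp
    have h3 := conn_transport h.symm h2 hy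
    refine ⟨h.symm y, ?_, by simp⟩
    have h4 : h.symm '' (h '' A) = A := by
      rw [← image_comp]; simp
    rw [h4, Equiv.symm_apply_apply] at h3
    exact h3

lemma iso_flap {M M' : St C} {a : List ℕ} {D : Set ℕ} (h : Equiv.Perm ℕ)
    (h0 : ∀ z ∈ a, h z = z) (h1 : ∀ u v, M.1 u v = M'.1 (h u) (h v))
    (h2 : ∀ l : List ℕ, M.2 l = M'.2 (l.map h)) (hD : IsCp M (ms a) D) :
    IsCp M' (ms a) (h '' D) ∧ FI M a D M' a (h '' D) := by
  have hA : h '' ms a = ms a := by
    ext z
    constructor
    · rintro ⟨u, hu, rfl⟩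
      rw [h0 u hu]; exact hu
    · intro hz; exact ⟨z, hz, h0 z hz⟩
  constructor
  · obtain ⟨v, hv, rfl⟩ := hD
    refine ⟨h v, ?_, ?_⟩
    · rw [← hA, h.injective.mem_set_image]; exact hv
    · rw [cp_transport h h1, hA]
  · refine ⟨h, rfl, h.injective.injOn.bijOn_image, ?_⟩
    intro x hx
    have key : ∀ z ∈ a.zip a ++ x.map (fun z => (z, h z)), z.2 = h z.1 := by
      intro z hz
      rcases List.mem_append.1 hz with hz | hz
      · rw [← dg_eq_zip] at hz
        obtain ⟨h3, h4⟩ := mem_dg.1 hz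
        rw [h0 _ h4]; exact h3.symm
      · obtain ⟨u, -, rfl⟩ := List.mem_map.1 hz
        rfl
    refine ⟨?_, ?_, ?_⟩
    · intro z hz w hw
      rw [key z hz, key w hw, h.injective.eq_iff]
    · intro z hz w hw
      rw [key z hz, key w hw, ← h1]
    · intro q hq
      have : q.map Prod.snd = (q.map Prod.fst).map h := by
        rw [List.map_map]
        exact List.map_congr_left fun z hz => key z (hq z hz)
      rw [this, ← h2]

end transport

theorem pf_FINB {C : Type} [MeasurableSpace C] {c0 : C} (hEXN : EXN C c0) (hRPF : RPF C c0)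
    (hMEM : MEM C c0) (hMEA : MEA C c0) : FINB C c0 := by
  classical
  intro X b H M hMX a
  by_contra hinf
  have hM : Valid c0 M := H.val M hMX
  have hinf' : {D : Set ℕ | IsCp M (ms a) D ∧ ¬ small c0 b M a D}.Infinite := hinf
  set e := hinf'.natEmbedding with he
  set D : ℕ → Set ℕ := fun i => (e i).1 with hDdef
  have hcp : ∀ i, IsCp M (ms a) (D i) := fun i => (e i).2.1
  have hns : ∀ i, ¬ small c0 b M a (D i) := fun i => (e i).2.2
  have hDinj : ∀ i j, D i = D j → i = j := fun i j hij => e.injective (Subtype.ext hij)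
  have hdis : ∀ i j, i ≠ j → Disjoint (D i) (D j) := by
    intro i j hij
    rw [Set.disjoint_left]
    intro x hx hx'
    exact hij (hDinj i j ((hcp i).eq_of_inter hM (hcp j) hx hx'))
  choose v hv using fun i => (hcp i).nonempty
  have hva : ∀ i, v i ∉ a := fun i => Set.disjoint_left.1 (hcp i).disj (hv i)
  -- the structures
  let T : (i : ℕ) → (∀ j, j < i → St C) → Set (Fl C) := fun i prev =>
    {t | (Valid c0 t.1 ∧ t.2.2 ∉ t.2.1) ∧
      ((∃ u, t = (M, a, u)) ∨ ∃ j, ∃ h : j < i, t = (prev j h, a, v j))}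
  have hTc : ∀ i prev, (T i prev).Countable := by
    intro i prev
    have h1 : (range (fun u : ℕ => ((M, a, u) : Fl C))).Countable := countable_range _
    have h2 : (range (fun j : {j : ℕ // j < i} => ((prev j.1 j.2, a, v j.1) : Fl C))).Countable :=
      countable_range _
    refine (h1.union h2).mono ?_
    rintro t ⟨-, ⟨u, rfl⟩ | ⟨j, hj, rfl⟩⟩
    · exact Or.inl ⟨u, rfl⟩
    · exact Or.inr ⟨⟨j, hj⟩, rfl⟩
  have hex : ∀ (i : ℕ) (prev : ∀ j, j < i → St C), ∃ R : St C, Valid c0 R ∧
      IsCp R (ms a) (D i) ∧ PI M R (dg a) ∧ bf M R (D i) (D i) b (dg a) ∧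
      ∀ t ∈ T i prev, ¬ FI R a (D i) t.1 t.2.1 t.set := fun i prev =>
    hEXN X b H M hMX a (D i) (hcp i) (hns i) (T i prev) (hTc i prev) (fun t ht => ht.1)
  let R : ℕ → St C := (Nat.lt_wfRel.wf).fix (fun i prev => (hex i prev).choose)
  have hR : ∀ i, Valid c0 (R i) ∧ IsCp (R i) (ms a) (D i) ∧ PI M (R i) (dg a) ∧
      bf M (R i) (D i) (D i) b (dg a) ∧
      ∀ t ∈ T i (fun j _ => R j), ¬ FI (R i) a (D i) t.1 t.2.1 t.set := by
    intro i
    have h1 : R i = (hex i (fun j _ => R j)).choose :=
      (Nat.lt_wfRel.wf).fix_eq (fun i prev => (hex i prev).choose) i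
    rw [h1]
    exact (hex i (fun j _ => R j)).choose_spec
  have hset : ∀ j, Fl.set ((R j, a, v j) : Fl C) = D j := by
    intro j
    exact ((hR j).2.1.eq_cp (hR j).1 (hv j)).symm
  -- two different pieces are not isomorphic
  have hnij : ∀ i j, j < i → ¬ FI (R i) a (D i) (R j) a (D j) := by
    intro i j hji hFI
    refine (hR i).2.2.2.2 (R j, a, v j) ⟨⟨(hR j).1, hva j⟩, Or.inr ⟨j, hji, rfl⟩⟩ ?_
    rw [hset]
    exact hFI
  have hnij' : ∀ i j, i ≠ j → ¬ FI (R i) a (D i) (R j) a (D j) := by
    intro i j hij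
    rcases lt_or_gt_of_ne hij with h | h
    · exact fun hFI => hnij j i h hFI.symm
    · exact hnij i j h
  have hnM : ∀ i E, IsCp M (ms a) E → ¬ FI (R i) a (D i) M a E := by
    intro i E hE hFI
    obtain ⟨u, hu⟩ := hE.nonempty
    refine (hR i).2.2.2.2 (M, a, u) ⟨⟨hM, Set.disjoint_left.1 hE.disj hu⟩, Or.inl ⟨u, rfl⟩⟩ ?_
    have : Fl.set ((M, a, u) : Fl C) = E := (hE.eq_cp hM hu).symm
    rw [this]
    exact hFI
  have hRD : RD c0 M (fun _ => a) D R univ :=
    { val := hM
      valR := fun i _ => (hR i).1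
      cpM := fun i _ => hcp i
      cpR := fun i _ => (hR i).2.1
      pi := fun i _ => (hR i).2.2.1
      disj := fun i _ j _ hij => hdis i j hij
      disjA := fun i _ j _ => (hcp j).disj.symm }
  have hmeas : ∀ i, MeasurableSet {x : ℕ → Bool | i ∈ {i | x i = true}} := by
    intro i
    have hm : Measurable fun x : ℕ → Bool => x i := measurable_pi_apply i
    exact hm (measurableSet_singleton true)
  obtain ⟨x, x', hne, hiso⟩ := H.nf (fun x => repl c0 M (fun _ => a) D R {i | x i = true}) a
    (hMEA M (fun _ => a) D R hRD (fun x => {i | x i = true}) hmeas)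
    (fun x => hMEM X b H.val H.cl M hMX (fun _ => a) D R _ (hRD.restr _)
      (fun i _ => (hR i).2.2.2.1))
  -- the main step
  have main : ∀ x x' : ℕ → Bool, ∀ i, x i = true → x' i = false →
      ¬ IsoO a (repl c0 M (fun _ => a) D R {i | x i = true})
        (repl c0 M (fun _ => a) D R {i | x' i = true}) := by
    intro x x' i hxi hxi' hiso
    obtain ⟨h, hh0, hh1, hh2⟩ := hiso
    obtain ⟨hV, -, -, -, -, hcpx, hFIx⟩ := hRPF _ _ _ _ _ (hRD.restr {i | x i = true})
    obtain ⟨hV', he1, he2, -, -, hcpx', hFIx'⟩ := hRPF _ _ _ _ _ (hRD.restr {i | x' i = true})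
    have hi : i ∈ {i | x i = true} := hxi
    obtain ⟨hc1, hc2⟩ := iso_flap h hh0 hh1 hh2 (hcpx i hi)
    have hFI1 := (hFIx i hi).symm.trans hc2
    generalize repl c0 M (fun _ => a) D R {i | x' i = true} = N' at *
    by_cases hcase : ∃ j, x' j = true ∧ ∃ u, u ∈ h '' D i ∧ u ∈ D j
    · obtain ⟨j, hj, u, hu1, hu2⟩ := hcase
      have h3 : h '' D i = D j := hc1.eq_of_inter hV' (hcpx' j hj) hu1 hu2
      rw [h3] at hFI1
      refine hnij' i j ?_ (hFI1.trans (hFIx' j hj))
      intro h4
      rw [← h4, hxi'] at hj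
      exact Bool.noConfusion hj
    · push Not at hcase
      have hcase' : ∀ u ∈ h '' D i, ∀ j ∈ {i | x' i = true}, u ∉ D j := fun u hu j hj =>
        hcase j hj u hu
      have haD : ∀ u ∈ ms a, ∀ j ∈ {i | x' i = true}, u ∉ D j := fun u hu j _ h5 =>
        Set.disjoint_left.1 (hcp j).disj h5 hu
      -- `h '' D i` is a component of `M - a`
      have hcM : IsCp M (ms a) (h '' D i) := by
        rw [isCp_iff hM]
        refine ⟨⟨hc1.nonempty, ?_⟩, hc1.disj, ?_⟩
        · intro u hu w hw
          have h6 := (hc1.cd hV').2 u hu w hw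
          obtain ⟨h7, h8⟩ := h6
          induction h8 with
          | refl => exact Conn.refl h7
          | tail hb hs ih =>
            rename_i y z
            have hy : y ∈ h '' D i := by
              by_contra hcon
              exact (Conn.not_right ⟨h7, hb⟩) hcon
            have hz : z ∈ h '' D i := by
              by_contra hcon
              exact hs.2 hcon
            refine (ih hy).step ?_ hs.2
            rw [← he1 y z (hcase' y hy) (hcase' z hz)]
            exact hs.1
        · rintro u ⟨hu, s, hs, hE⟩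
          by_cases hex2 : ∃ j, x' j = true ∧ u ∈ D j
          · obtain ⟨j, hj, huj⟩ := hex2
            have h9 : s ∈ Nb M (D j) := ⟨hcase j hj s hs, u, huj, by rw [hM.1]; exact hE⟩
            exact (Set.disjoint_left.1 hc1.disj hs ((hcp j).nb hM h9)).elim
          · push Not at hex2
            refine hc1.nb hV' ⟨hu, s, hs, ?_⟩
            rw [he1 u s (fun j hj => hex2 j hj) (hcase' s hs)]
            exact hE
      refine hnM i _ hcM (hFI1.trans ⟨id, rfl, Set.bijOn_id _, ?_⟩)
      intro l hl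
      have key : ∀ z ∈ a.zip a ++ l.map (fun z => (z, id z)), z.1 = z.2 ∧
          ∀ j ∈ {i | x' i = true}, z.1 ∉ D j := by
        intro z hz
        rcases List.mem_append.1 hz with hz | hz
        · rw [← dg_eq_zip] at hz
          obtain ⟨h3, h4⟩ := mem_dg.1 hz
          exact ⟨h3, haD _ h4⟩
        · obtain ⟨u, hu, rfl⟩ := List.mem_map.1 hz
          exact ⟨rfl, hcase' u (hl u hu)⟩
      refine ⟨?_, ?_, ?_⟩
      · intro z hz w hw
        rw [(key z hz).1, (key w hw).1]
      · intro z hz w hw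
        rw [← (key z hz).1, ← (key w hw).1]
        exact he1 _ _ (key z hz).2 (key w hw).2
      · intro q hq
        have h10 : q.map Prod.snd = q.map Prod.fst :=
          List.map_congr_left fun z hz => (key z (hq z hz)).1.symm
        rw [h10]
        refine he2 _ ?_
        intro u hu
        obtain ⟨z, hz, rfl⟩ := List.mem_map.1 hu
        exact (key z (hq z hz)).2
  apply hne
  funext i
  rcases hx : x i with _ | _ <;> rcases hx' : x' i with _ | _
  · rfl
  · exact (main x' x i hx' hx hiso.symm').elim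
  · exact (main x x' i hx hx' hiso).elim
  · rfl

end Pool.Agent.TK
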