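import Pool.Agent.H71.PermTop
import Pool.Agent.H59.TV.Vaught
import Pool.Agent.H75.TK.BF

/-!
# R1: invariant Borel classes are closed under back-and-forth equivalence of some clock
-/

set_option autoImplicit false

open Set Filter Topology Pool.Agent.H71 Pool.Agent.H75.TK

namespace Pool.Agent.H76.TK

attribute [local instance] permTop polishSpace_perm isTopologicalGroup_perm permMeas
  borelSpace_perm

/-- permutations which send the positions `0, 1, …` to the members of the list (read from the
end) -/
def V : List ℕ → Set (Equiv.Perm ℕ)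
  | [] => univ
  | x :: a => {g | g a.length = x} ∩ V a

lemma V_isOpen (a : List ℕ) : IsOpen (V a) := by
  induction a with
  | nil => exact isOpen_univ
  | cons x a ih => exact (isOpen_apply_eq _ _).inter ih

lemma V_eq_iUnion (a : List ℕ) : V a = ⋃ x, V (x :: a) := by
  ext g
  simp only [V, mem_iUnion, mem_inter_iff, mem_ofPred_eq]
  constructor
  · intro h; exact ⟨_, rfl, h⟩
  · rintro ⟨x, -, h⟩; exact h

/-- the list of the first values of a permutation (from the end) -/
def vals (g : Equiv.Perm ℕ) : ℕ → List ℕ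
  | 0 => []
  | n + 1 => g n :: vals g n

@[simp] lemma vals_length (g : Equiv.Perm ℕ) (n : ℕ) : (vals g n).length = n := by
  induction n with
  | zero => rfl
  | succ n ih => simp [vals, ih]

lemma mem_V_vals (g : Equiv.Perm ℕ) (n : ℕ) : g ∈ V (vals g n) := by
  induction n with
  | zero => exact mem_univ _
  | succ n ih => exact ⟨by simp, ih⟩

lemma apply_of_mem_V_vals {g h : Equiv.Perm ℕ} {n : ℕ} (hh : h ∈ V (vals g n)) {i : ℕ}
    (hi : i < n) : h i = g i := by
  induction n with
  | zero => omega
  | succ n ih =>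
    obtain ⟨h1, h2⟩ := hh
    rcases Nat.lt_succ_iff_lt_or_eq.1 hi with h3 | rfl
    · exact ih h2 h3
    · simpa using h1

/-- `e` extends `a` -/
lemma vals_ext {a : List ℕ} {g : Equiv.Perm ℕ} (hg : g ∈ V a) {n : ℕ} (hn : a.length ≤ n) :
    ∃ e : List ℕ, vals g n = e ++ a ∧ e.length = n - a.length := by
  induction n, hn using Nat.le_induction with
  | base =>
    refine ⟨[], ?_, by simp⟩
    induction a with
    | nil => rfl
    | cons x a ih =>
      obtain ⟨h1, h2⟩ := hg
      have h3 := ih h2
      simp only [List.nil_append] at h3 ⊢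
      rw [List.length_cons, vals, h3]
      congr 1
  | succ n hn ih =>
    obtain ⟨e, he, hl⟩ := ih
    refine ⟨g n :: e, ?_, ?_⟩
    · rw [vals, he]; rfl
    · rw [List.length_cons, hl]; omega

lemma V_append_subset (e a : List ℕ) : V (e ++ a) ⊆ V a := by
  induction e with
  | nil => exact Subset.rfl
  | cons x e ih => exact fun g hg => ih hg.2

/-- the sets `V (vals g n)` are a basis of neighbourhoods of `g` -/
lemma exists_vals_subset {U : Set (Equiv.Perm ℕ)} (hU : IsOpen U) {g : Equiv.Perm ℕ}
    (hg : g ∈ U) (N : ℕ) : ∃ n, N ≤ n ∧ V (vals g n) ⊆ U := by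
  by_contra hcon
  push Not at hcon
  have h1 : ∀ n : ℕ, ∃ h : Equiv.Perm ℕ, h ∈ V (vals g (N + n)) ∧ h ∉ U := by
    intro n
    have := hcon (N + n) (Nat.le_add_right _ _)
    rw [not_subset] at this
    exact this
  choose h hh hh' using h1
  have h2 : Tendsto h atTop (𝓝 g) := by
    refine tendsto_perm ?_ ?_
    · intro a
      filter_upwards [eventually_gt_atTop a] with n hn
      exact apply_of_mem_V_vals (hh n) (by omega)
    · intro a
      filter_upwards [eventually_gt_atTop (g.symm a)] with n hn
      rw [Equiv.symm_apply_eq, apply_of_mem_V_vals (hh n) (by omega), Equiv.apply_symm_apply]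
  obtain ⟨n, hn⟩ := (h2.eventually (hU.mem_nhds hg)).exists
  exact hh' n hn

lemma V_nodup {a : List ℕ} {g : Equiv.Perm ℕ} (hg : g ∈ V a) : a.Nodup := by
  obtain ⟨e, he, hl⟩ := vals_ext hg le_rfl
  have h2 : e = [] := List.eq_nil_of_length_eq_zero (by omega)
  subst h2
  rw [List.nil_append] at he
  rw [← he]
  have key : ∀ n, (vals g n).Nodup ∧ ∀ x ∈ vals g n, ∃ i < n, x = g i := by
    intro n
    induction n with
    | zero => exact ⟨List.nodup_nil, by simp [vals]⟩
    | succ n ih =>
      refine ⟨List.nodup_cons.2 ⟨?_, ih.1⟩, ?_⟩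
      · intro h
        obtain ⟨i, hi, h3⟩ := ih.2 _ h
        have := g.injective h3
        omega
      · intro x hx
        rcases List.mem_cons.1 hx with rfl | hx
        · exact ⟨n, by omega, rfl⟩
        · obtain ⟨i, hi, h3⟩ := ih.2 x hx
          exact ⟨i, by omega, h3⟩
  exact (key _).1

/-- finite injective lists extend to permutations -/
lemma V_nonempty {a : List ℕ} (ha : a.Nodup) : (V a).Nonempty := by
  induction a with
  | nil => exact ⟨1, mem_univ _⟩
  | cons x a ih =>
    obtain ⟨hx, ha⟩ := List.nodup_cons.1 ha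
    obtain ⟨g, hg⟩ := ih ha
    refine ⟨g.trans (Equiv.swap (g a.length) x), ?_, ?_⟩
    · simp
    · -- the swap does not move the members of `a`
      have key : ∀ b : List ℕ, (∀ y ∈ b, y ≠ x) → b.length ≤ a.length → g ∈ V b →
          g.trans (Equiv.swap (g a.length) x) ∈ V b := by
        intro b
        induction b with
        | nil => intro _ _ _; exact mem_univ _
        | cons y b ihb =>
          intro h1 h2 h3
          refine ⟨?_, ihb (fun z hz => h1 z (List.mem_cons_of_mem _ hz)) ?_ h3.2⟩
          · have h4 : g b.length = y := h3.1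
            change Equiv.swap (g a.length) x (g b.length) = y
            rw [h4, Equiv.swap_apply_of_ne_of_ne]
            · rw [← h4]
              intro h5
              have := g.injective h5
              rw [List.length_cons] at h2
              omega
            · exact h1 y List.mem_cons_self
          · rw [List.length_cons] at h2
            omega
      exact key a (fun y hy h => hx (h ▸ hy)) le_rfl hg

variable {C : Type*}

/-- relabelling -/
def rl (g : Equiv.Perm ℕ) (c : List ℕ → C) : List ℕ → C := fun l => c (l.map g)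

lemma rl_rl (g h : Equiv.Perm ℕ) (c : List ℕ → C) : rl g (rl h c) = rl (g.trans h) c := by
  funext l
  simp [rl, List.map_map, Function.comp_def]

/-- Vaught transform -/
def NM (B : Set (List ℕ → C)) (c : List ℕ → C) (a : List ℕ) : Prop :=
  ¬ IsMeagre ({g | rl g c ∈ B} ∩ V a)

lemma NM_cons {B : Set (List ℕ → C)} {c : List ℕ → C} {a : List ℕ} :
    NM B c a ↔ ∃ x, NM B c (x :: a) := by
  constructor
  · intro h
    by_contra hcon
    push Not at hcon
    apply h
    rw [V_eq_iUnion, inter_iUnion]
    exact isMeagre_iUnion fun x => by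
      have := hcon x
      unfold NM at this
      rwa [not_not] at this
  · rintro ⟨x, hx⟩ h
    refine hx (h.mono ?_)
    exact inter_subset_inter_right _ fun g hg => hg.2

lemma NM_append {B : Set (List ℕ → C)} {c : List ℕ → C} {e a : List ℕ} (h : NM B c (e ++ a)) :
    NM B c a := fun h' => h (h'.mono (inter_subset_inter_right _ (V_append_subset e a)))

lemma NM_iUnion {B : ℕ → Set (List ℕ → C)} {c : List ℕ → C} {a : List ℕ} :
    NM (⋃ n, B n) c a ↔ ∃ n, NM (B n) c a := by
  constructor
  · intro h
    by_contra hcon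
    push Not at hcon
    apply h
    have : {g | rl g c ∈ ⋃ n, B n} ∩ V a = ⋃ n, ({g | rl g c ∈ B n} ∩ V a) := by
      ext g
      simp
    rw [this]
    exact isMeagre_iUnion fun n => by
      have := hcon n
      unfold NM at this
      rwa [not_not] at this
  · rintro ⟨n, hn⟩ h
    refine hn (h.mono ?_)
    exact inter_subset_inter_left _ fun g hg => mem_iUnion.2 ⟨n, hg⟩

lemma isOpen_map_eq : ∀ (l m : List ℕ), IsOpen {g : Equiv.Perm ℕ | l.map g = m} := by
  intro l
  induction l with
  | nil =>
    intro m
    by_cases hm : m = []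
    · have : {g : Equiv.Perm ℕ | [].map g = m} = univ := by
        ext g; simp [hm]
      rw [this]; exact isOpen_univ
    · have : {g : Equiv.Perm ℕ | [].map g = m} = ∅ := by
        ext g
        simp only [List.map_nil, mem_ofPred_eq, mem_empty_iff_false, iff_false]
        exact fun h => hm h.symm
      rw [this]; exact isOpen_empty
  | cons x l ih =>
    intro m
    cases m with
    | nil =>
      have : {g : Equiv.Perm ℕ | (x :: l).map g = []} = ∅ := by
        ext g; simp
      rw [this]; exact isOpen_empty
    | cons y m =>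
      have : {g : Equiv.Perm ℕ | (x :: l).map g = y :: m} =
          {g : Equiv.Perm ℕ | g x = y} ∩ {g : Equiv.Perm ℕ | l.map g = m} := by
        ext g; simp
      rw [this]; exact (isOpen_apply_eq _ _).inter (ih m)

lemma measurable_rl [MeasurableSpace C] (c : List ℕ → C) :
    Measurable fun g : Equiv.Perm ℕ => rl g c := by
  refine measurable_pi_lambda _ fun l => ?_
  intro U _
  have : (fun g : Equiv.Perm ℕ => rl g c l) ⁻¹' U =
      ⋃ m ∈ {m : List ℕ | c m ∈ U}, {g : Equiv.Perm ℕ | l.map g = m} := by
    ext g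
    simp [rl]
  rw [this]
  exact (isOpen_biUnion fun m _ => isOpen_map_eq l m).measurableSet

lemma NM_compl [MeasurableSpace C] {B : Set (List ℕ → C)} (hB : MeasurableSet B) {c : List ℕ → C} {a : List ℕ} :
    NM Bᶜ c a ↔ ∃ e : List ℕ, (e ++ a).Nodup ∧ ¬ NM B c (e ++ a) := by
  constructor
  · intro h
    have hm : MeasurableSet {g : Equiv.Perm ℕ | rl g c ∈ Bᶜ} := measurable_rl c hB.compl
    obtain ⟨W, hWo, ⟨g, hg⟩, hWV, hme⟩ := Pool.Agent.H59.TV.baire_inter_open
      hm.baireMeasurableSet (V_isOpen a) h
    obtain ⟨n, hn, hsub⟩ := exists_vals_subset hWo hg a.length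
    obtain ⟨e, he, -⟩ := vals_ext (hWV hg) hn
    refine ⟨e, ?_, ?_⟩
    · rw [← he]
      exact V_nodup (mem_V_vals g n)
    · unfold NM
      rw [not_not, ← he]
      refine hme.mono ?_
      rintro h ⟨h1, h2⟩
      exact ⟨hsub h2, fun h3 => h3 h1⟩
  · rintro ⟨e, he, hne⟩ h
    unfold NM at hne
    rw [not_not] at hne
    refine not_isMeagre_of_isOpen (V_isOpen (e ++ a)) (V_nonempty he) ((hne.union h).mono ?_)
    intro g hg
    by_cases hB' : rl g c ∈ B
    · exact Or.inl ⟨hB', hg⟩
    · exact Or.inr ⟨hB', V_append_subset e a hg⟩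

/-- the set `B` has the property that its Vaught transforms are decided by the equivalence of
clock `r` -/
def Good (B : Set (List ℕ → C)) (r : Clk) : Prop :=
  ∀ (c c' : List ℕ → C) (p : Pos), BF c c' univ univ r p →
    NM B c (p.map Prod.fst) → NM B c' (p.map Prod.snd)

lemma Good.symm {B : Set (List ℕ → C)} {r : Clk} (h : Good B r) {c c' : List ℕ → C} {p : Pos}
    (hp : BF c c' univ univ r p) (h1 : NM B c' (p.map Prod.snd)) : NM B c (p.map Prod.fst) := by
  have h2 := h c' c (p.map Prod.swap) hp.symm
  simp only [List.map_map] at h2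
  exact h2 h1

lemma atom_nodup {c c' : List ℕ → C} : ∀ {p : Pos}, Atom c c' p → (p.map Prod.fst).Nodup →
    (p.map Prod.snd).Nodup := by
  intro p
  induction p with
  | nil => intro _ _; exact List.nodup_nil
  | cons q p ih =>
    intro h h1
    rw [List.map_cons, List.nodup_cons] at h1 ⊢
    refine ⟨?_, ih (h.mono fun x hx => List.mem_cons_of_mem _ hx) h1.2⟩
    intro h2
    obtain ⟨q', hq', h3⟩ := List.mem_map.1 h2
    apply h1.1
    have := (h.2 q' (List.mem_cons_of_mem _ hq') q List.mem_cons_self).2 h3
    exact List.mem_map.2 ⟨q', hq', this⟩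

lemma ext_forth {c c' : List ℕ → C} (r : Clk) (e : List ℕ) : ∀ p : Pos,
    BF c c' univ univ (Clk.addn r e.length) p → ∃ q : Pos, q.map Prod.fst = e ∧
      BF c c' univ univ r (q ++ p) := by
  induction e generalizing r with
  | nil => intro p h; exact ⟨[], rfl, h⟩
  | cons x e ih =>
    intro p h
    have h0 : Clk.addn r (x :: e).length = Clk.addn (Clk.succ r) e.length := by
      unfold Clk.addn
      rw [List.length_cons, Function.iterate_succ_apply]
    rw [h0] at h
    obtain ⟨q, hq, h1⟩ := ih (Clk.succ r) p h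
    obtain ⟨y, -, h2⟩ := h1.forth 0 (mem_univ x)
    exact ⟨(x, y) :: q, by simp [hq], h2⟩

lemma Good.compl [MeasurableSpace C] {B : Set (List ℕ → C)} (hB : MeasurableSet B) {r : Clk} (h : Good B r) :
    Good Bᶜ (Clk.addω r) := by
  intro c c' p hp h1
  rw [NM_compl hB] at h1 ⊢
  obtain ⟨e, he, h2⟩ := h1
  obtain ⟨q, hq, h3⟩ := ext_forth r e p (hp.mono_clk (Clk.addn_le_addω r _))
  refine ⟨q.map Prod.snd, ?_, ?_⟩
  · rw [← List.map_append]
    refine atom_nodup h3.atom ?_
    rw [List.map_append, hq]
    exact he
  · intro h4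
    rw [← List.map_append] at h4
    have h5 := h.symm h3 h4
    rw [List.map_append, hq] at h5
    exact h2 h5

lemma Good.iUnion {B : ℕ → Set (List ℕ → C)} {r : ℕ → Clk} (h : ∀ n, Good (B n) (r n)) :
    Good (⋃ n, B n) (.mk r) := by
  intro c c' p hp h1
  rw [NM_iUnion] at h1 ⊢
  obtain ⟨n, hn⟩ := h1
  exact ⟨n, h n c c' p (hp.mono_clk (Clk.child_le r n)) hn⟩

lemma Good.mono {B : Set (List ℕ → C)} {r s : Clk} (h : Good B r) (hrs : Clk.le r s) :
    Good B s := fun c c' p hp => h c c' p (hp.mono_clk hrs)

/-- reduction to long positions -/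
lemma Good.of_long {B : Set (List ℕ → C)} {r : Clk} (n : ℕ)
    (h : ∀ (c c' : List ℕ → C) (p : Pos), n ≤ p.length → BF c c' univ univ r p →
      NM B c (p.map Prod.fst) → NM B c' (p.map Prod.snd)) : Good B (Clk.addn r n) := by
  have key : ∀ m : ℕ, ∀ (c c' : List ℕ → C) (p : Pos), n ≤ p.length + m →
      BF c c' univ univ (Clk.addn r m) p →
      NM B c (p.map Prod.fst) → NM B c' (p.map Prod.snd) := by
    intro m
    induction m with
    | zero => intro c c' p hp h1; exact h c c' p (by omega) h1
    | succ m ih =>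
      intro c c' p hp h1 h2
      rw [NM_cons] at h2
      obtain ⟨x, hx⟩ := h2
      rw [Clk.addn_succ] at h1
      obtain ⟨y, -, h3⟩ := h1.forth 0 (mem_univ x)
      have h4 := ih c c' ((x, y) :: p) (by rw [List.length_cons]; omega) h3 hx
      exact NM_append (e := [y]) h4
  intro c c' p hp
  exact key n c c' p (by omega) hp

/-- value of a list at a position -/
lemma apply_eq_of_mem_V {a : List ℕ} {g : Equiv.Perm ℕ} (hg : g ∈ V a) {i : ℕ}
    (hi : i < a.length) : g i = a[a.length - 1 - i]'(by omega) := by
  induction a with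
  | nil => simp at hi
  | cons x a ih =>
    obtain ⟨h1, h2⟩ := hg
    rcases Nat.lt_succ_iff_lt_or_eq.1 (by simpa using hi) with h3 | rfl
    · rw [ih h2 h3]
      have : (x :: a).length - 1 - i = (a.length - 1 - i) + 1 := by
        rw [List.length_cons]; omega
      simp only [this, List.getElem_cons_succ]
    · have : (x :: a).length - 1 - a.length = 0 := by
        rw [List.length_cons]; omega
      simp only [this, List.getElem_cons_zero]
      exact h1

lemma good_eval (l : List ℕ) (U : Set C) : ∃ r, Good {c : List ℕ → C | c l ∈ U} r := by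
  obtain ⟨n, hn⟩ : ∃ n, ∀ i ∈ l, i < n := by
    induction l with
    | nil => exact ⟨0, by simp⟩
    | cons x l ih =>
      obtain ⟨n, hn⟩ := ih
      refine ⟨max n (x + 1), ?_⟩
      intro i hi
      rcases List.mem_cons.1 hi with rfl | hi
      · exact lt_of_lt_of_le (Nat.lt_succ_self _) (le_max_right _ _)
      · exact lt_of_lt_of_le (hn i hi) (le_max_left _ _)
  refine ⟨_, Good.of_long (r := .zero) n ?_⟩
  intro c c' p hp h1 h2
  -- the common value
  have h3 : ∀ i ∈ l, i < p.length := fun i hi => lt_of_lt_of_le (hn i hi) hp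
  -- pairs of the position used by `l`
  let P : ℕ → ℕ × ℕ := fun i => p.getD (p.length - 1 - i) (0, 0)
  have hPmem : ∀ i ∈ l, P i ∈ p := by
    intro i hi
    have h4 := h3 i hi
    change p.getD (p.length - 1 - i) (0, 0) ∈ p
    rw [List.getD_eq_getElem _ _ (by omega)]
    exact List.getElem_mem _
  have hfst : ∀ g ∈ V (p.map Prod.fst), ∀ i ∈ l, g i = (P i).1 := by
    intro g hg i hi
    have h4 := h3 i hi
    rw [apply_eq_of_mem_V hg (by rw [List.length_map]; exact h4)]
    change _ = (p.getD (p.length - 1 - i) (0, 0)).1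
    rw [List.getD_eq_getElem _ _ (by omega)]
    simp only [List.length_map, List.getElem_map]
  have hsnd : ∀ g ∈ V (p.map Prod.snd), ∀ i ∈ l, g i = (P i).2 := by
    intro g hg i hi
    have h4 := h3 i hi
    rw [apply_eq_of_mem_V hg (by rw [List.length_map]; exact h4)]
    change _ = (p.getD (p.length - 1 - i) (0, 0)).2
    rw [List.getD_eq_getElem _ _ (by omega)]
    simp only [List.length_map, List.getElem_map]
  have hat := h1.atom.1 (l.map P) (by
    intro q hq
    obtain ⟨i, hi, rfl⟩ := List.mem_map.1 hq
    exact hPmem i hi)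
  rw [List.map_map, List.map_map] at hat
  -- the first side
  have hne : ({g | rl g c ∈ {c : List ℕ → C | c l ∈ U}} ∩ V (p.map Prod.fst)).Nonempty := by
    by_contra hcon
    rw [not_nonempty_iff_eq_empty] at hcon
    apply h2
    rw [hcon]
    exact IsMeagre.empty
  obtain ⟨g, hg, hgV⟩ := hne
  have hU : c (l.map fun i => (P i).1) ∈ U := by
    have h5 : l.map g = l.map fun i => (P i).1 := List.map_congr_left fun i hi => hfst g hgV i hi
    have h6 : c (l.map g) ∈ U := hg
    rwa [h5] at h6
  have hU' : c' (l.map fun i => (P i).2) ∈ U := by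
    have : c (l.map fun i => (P i).1) = c' (l.map fun i => (P i).2) := hat
    rwa [← this]
  have hnd : (p.map Prod.snd).Nodup := atom_nodup h1.atom (V_nodup hgV)
  intro hme
  refine not_isMeagre_of_isOpen (V_isOpen (p.map Prod.snd)) (V_nonempty hnd) (hme.mono ?_)
  intro h hh
  refine ⟨?_, hh⟩
  change c' (l.map h) ∈ U
  rw [List.map_congr_left fun i hi => hsnd h hh i hi]
  exact hU'

/-- the σ-algebra of good sets -/
theorem exists_good [MeasurableSpace C] {B : Set (List ℕ → C)} (hB : MeasurableSet B) : ∃ r, Good B r := by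
  let m : MeasurableSpace (List ℕ → C) :=
    { MeasurableSet' := fun B => MeasurableSet B ∧ ∃ r, Good B r
      measurableSet_empty := by
        refine ⟨MeasurableSet.empty, .zero, ?_⟩
        intro c c' p _ h
        exact (h (by
          have : {g | rl g c ∈ (∅ : Set (List ℕ → C))} ∩ V (p.map Prod.fst) = ∅ := by
            ext g; simp
          rw [this]
          exact IsMeagre.empty)).elim
      measurableSet_compl := by
        rintro B ⟨hB, r, hr⟩
        exact ⟨hB.compl, _, hr.compl hB⟩
      measurableSet_iUnion := by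
        intro B hB
        choose r hr using fun n => (hB n).2
        exact ⟨MeasurableSet.iUnion fun n => (hB n).1, _, Good.iUnion hr⟩ }
  have hle : (MeasurableSpace.pi : MeasurableSpace (List ℕ → C)) ≤ m := by
    unfold MeasurableSpace.pi
    refine iSup_le fun l => ?_
    rintro _ ⟨U, hU, rfl⟩
    exact ⟨measurable_pi_apply l hU, good_eval l U⟩
  exact (hle B hB).2

/-- R1: an invariant Borel class of structures is closed under the back-and-forth equivalence
of some clock -/
theorem exists_clock_of_borel [MeasurableSpace C] (X : Set (List ℕ → C)) (hX : MeasurableSet X)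
    (hinv : ∀ g : Equiv.Perm ℕ, ∀ c ∈ X, (fun l : List ℕ => c (l.map g)) ∈ X) :
    ∃ r : Clk, ∀ c c' : List ℕ → C, c ∈ X → BF c c' univ univ r [] → c' ∈ X := by
  obtain ⟨r, hr⟩ := exists_good hX
  refine ⟨r, fun c c' hc hbf => ?_⟩
  have h1 : NM X c [] := by
    have : {g | rl g c ∈ X} ∩ V [] = univ := by
      ext g
      simp only [mem_inter_iff, mem_ofPred_eq, mem_univ, iff_true]
      exact ⟨hinv g c hc, mem_univ _⟩
    unfold NM
    rw [this]
    exact not_isMeagre_of_isOpen isOpen_univ ⟨1, mem_univ _⟩
  have h2 : NM X c' [] := hr c c' [] hbf h1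
  by_contra hc'
  apply h2
  have : {g | rl g c' ∈ X} ∩ V [] = ∅ := by
    ext g
    simp only [mem_inter_iff, mem_ofPred_eq, mem_empty_iff_false, iff_false, not_and]
    intro h3 _
    apply hc'
    have h4 := hinv g.symm _ h3
    have h5 : (fun l : List ℕ => rl g c' (l.map g.symm)) = c' := by
      funext l
      simp [rl, List.map_map, Function.comp_def]
    rwa [h5] at h4
  rw [this]
  exact IsMeagre.empty

end Pool.Agent.H76.TK
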