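import Pool.Agent.H16.TK.Stmt2
import Pool.Agent.H76.TK.R1

/-!
LOP: invariant Borel sets of structures are closed under the equivalence of some countable rank.
-/

set_option autoImplicit false

open Set

namespace Pool.Agent.TK

/-- clocks as ranks -/
def clkRk : Pool.Agent.H75.TK.Clk → Rk
  | .zero => .zero
  | .mk f => .sup (fun n => clkRk (f n))

/-- structures as functions on lists -/
def encSt {C : Type} (M : St C) : List ℕ → Bool × C := fun l =>
  ((match l with
    | [u, v] => M.1 u v
    | _ => false), M.2 l)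

/-- the converse -/
def decSt {C : Type} (c : List ℕ → Bool × C) : St C := (fun u v => (c [u, v]).1, fun l => (c l).2)

lemma dec_enc {C : Type} (M : St C) : decSt (encSt M) = M := rfl

lemma atom_of_PI {C : Type} {M M' : St C} {p : List (ℕ × ℕ)} (h : PI M M' p) :
    Pool.Agent.H75.TK.Atom (encSt M) (encSt M') p := by
  refine ⟨fun l hl => ?_, fun q hq q' hq' => h.1 q hq q' hq'⟩
  have h2 := h.2.2 l hl
  refine Prod.ext ?_ h2
  match l, hl with
  | [], _ => rfl
  | [_], _ => rfl
  | [z, w], hl =>
    exact h.2.1 z (hl z (by simp)) w (hl w (by simp))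
  | _ :: _ :: _ :: _, _ => rfl

lemma BF_of_bf {C : Type} {M M' : St C} {U U' : Set ℕ} (r : Pool.Agent.H75.TK.Clk) :
    ∀ p : List (ℕ × ℕ), bf M M' U U' (clkRk r) p →
      Pool.Agent.H75.TK.BF (encSt M) (encSt M') U U' r p := by
  induction r with
  | zero => intro p h; exact atom_of_PI h
  | mk f ih =>
    intro p h
    rw [Pool.Agent.H75.TK.BF_mk]
    refine ⟨atom_of_PI (bf_PI h), fun n => ?_⟩
    obtain ⟨h1, h2, h3⟩ := (show _ ∧ _ ∧ _ from h n)
    refine ⟨fun x hx => ?_, fun y hy => ?_⟩
    · obtain ⟨y, hy, h4⟩ := h2 x hx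
      exact ⟨y, hy, ih n _ h4⟩
    · obtain ⟨x, hx, h4⟩ := h3 y hy
      exact ⟨x, hx, ih n _ h4⟩

theorem pf_LOP {C : Type} [MeasurableSpace C] : LOP C := by
  intro X hX hinv
  have hdec : Measurable (decSt : (List ℕ → Bool × C) → St C) := by
    refine Measurable.prodMk ?_ ?_
    · refine measurable_pi_lambda _ fun u => measurable_pi_lambda _ fun v => ?_
      exact measurable_fst.comp (measurable_pi_apply [u, v])
    · refine measurable_pi_lambda _ fun l => ?_
      exact measurable_snd.comp (measurable_pi_apply l)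
  obtain ⟨r, hr⟩ := Pool.Agent.H76.TK.exists_clock_of_borel (decSt ⁻¹' X) (hdec hX) (by
    intro g c hc
    refine hinv _ hc _ ⟨g.symm, by simp, ?_, ?_⟩
    · intro u v
      change (c [u, v]).1 = (c [g (g.symm u), g (g.symm v)]).1
      simp
    · intro l
      change (c l).2 = (c ((l.map g.symm).map g)).2
      simp)
  refine ⟨clkRk r, fun M hM M' h => ?_⟩
  exact hr (encSt M) (encSt M') hM (BF_of_bf r [] h)

end Pool.Agent.TK
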