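import Pool.Agent.H16.TK.Stmt2

/-!
LEVEL: the level lemma.
-/

set_option autoImplicit false

open Set

namespace Pool.Agent.TK

lemma RD.restr {C : Type} {c0 : C} {M : St C} {a : ℕ → List ℕ} {D : ℕ → Set ℕ} {R : ℕ → St C}
    (h : RD c0 M a D R univ) (y : Set ℕ) : RD c0 M a D R y where
  val := h.val
  valR := fun i _ => h.valR i (mem_univ i)
  cpM := fun i _ => h.cpM i (mem_univ i)
  cpR := fun i _ => h.cpR i (mem_univ i)
  pi := fun i _ => h.pi i (mem_univ i)
  disj := fun i _ j _ => h.disj i (mem_univ i) j (mem_univ j)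
  disjA := fun i _ j _ => h.disjA i (mem_univ i) j (mem_univ j)

lemma IsoO.symm' {C : Type} {M M' : St C} {a : List ℕ} (h : IsoO a M M') : IsoO a M' M := by
  obtain ⟨g, h1, h2, h3⟩ := h
  refine ⟨g.symm, ?_, ?_, ?_⟩
  · intro z hz
    rw [Equiv.symm_apply_eq]
    exact (h1 z hz).symm
  · intro u v
    rw [h2]
    simp
  · intro l
    rw [h3]
    simp [List.map_map, Function.comp_def]

theorem pf_LEVEL {C : Type} [MeasurableSpace C] {c0 : C} (hLDX : LDX C c0) (hLDE : LDE C c0)
    (hLDR : LDR C c0) (hMEA : MEA C c0) (hMEM : MEM C c0) : LEVEL C c0 := by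
  intro b X H M hMX w A S hcs
  by_contra hcon
  push Not at hcon
  obtain ⟨k, a, D, R, r, hLD⟩ := hLDX b X H M hMX w A S hcs hcon
  have hRD := hLDR b X M w A S k a D R r hLD
  set φ : (ℕ → Bool) → Set ℕ := fun x => {i | (∃ j, i = 2 * j ∧ x j = true) ∨ ∃ j, i = 2 * j + 1}
    with hφ
  have hmeas : ∀ i, MeasurableSet {x : ℕ → Bool | i ∈ φ x} := by
    intro i
    rcases Nat.even_or_odd' i with ⟨j, hj | hj⟩
    · have : {x : ℕ → Bool | i ∈ φ x} = {x | x j = true} := by
        ext x
        simp only [hφ, mem_ofPred_eq]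
        constructor
        · rintro (⟨j', h1, h2⟩ | ⟨j', h1⟩)
          · have : j' = j := by omega
            rw [← this]; exact h2
          · omega
        · intro h; exact Or.inl ⟨j, hj, h⟩
      rw [this]
      have hm : Measurable fun x : ℕ → Bool => x j := measurable_pi_apply j
      exact hm (measurableSet_singleton true)
    · have : {x : ℕ → Bool | i ∈ φ x} = univ := by
        ext x
        simp only [hφ, mem_ofPred_eq, mem_univ, iff_true]
        exact Or.inr ⟨j, hj⟩
      rw [this]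
      exact MeasurableSet.univ
  obtain ⟨a0, ha0, -, -⟩ := exists_list hcs.fin0
  obtain ⟨x, x', hne, hiso⟩ := H.nf (fun x => repl c0 M a D R (φ x)) a0
    (hMEA M a D R hRD φ hmeas)
    (fun x => hMEM X b H.val H.cl M hMX a D R (φ x) (hRD.restr _) (fun i _ => hLD.bfR i))
  have hinf : ∀ x : ℕ → Bool, (φ x).Infinite := by
    intro x
    refine Set.infinite_of_injective_forall_mem (f := fun j : ℕ => 2 * j + 1) ?_ ?_
    · intro i j hij
      have : 2 * i + 1 = 2 * j + 1 := hij
      omega
    · intro j; exact Or.inr ⟨j, rfl⟩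
  have h1 := hLDE b X M w A S k a D R r hLD a0 ha0 (φ x) (φ x') (hinf x) (hinf x') hiso
  have h2 := hLDE b X M w A S k a D R r hLD a0 ha0 (φ x') (φ x) (hinf x') (hinf x) hiso.symm'
  apply hne
  funext j
  have key : ∀ z z' : ℕ → Bool, φ z ⊆ φ z' → z j = true → z' j = true := by
    intro z z' h hz
    rcases h (show 2 * j ∈ φ z from Or.inl ⟨j, rfl, hz⟩) with ⟨j', h3, h4⟩ | ⟨j', h3⟩
    · have : j' = j := by omega
      rw [← this]; exact h4
    · omega
  rw [Bool.eq_iff_iff]
  exact ⟨key x x' h1, key x' x h2⟩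

end Pool.Agent.TK
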