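import Pool.Agent.H16.TK.Stmt2

/-!
LNX: the canonical separators of the replaced structures are the same.
-/

set_option autoImplicit false

open Set

namespace Pool.Agent.TK

theorem pf_LNX {C : Type} [MeasurableSpace C] {c0 : C} (hCTR : CTR C) (hNFA : NFA C c0)
    (hLRF : LRF C c0) : LNX C c0 := by
  intro b X M w A S k a D R r H y w' hw' hw'sub hw'A n
  have hM : Valid c0 M := H.hyp.val M H.hM
  obtain ⟨hR1, hR2, hR3⟩ := hLRF b X M w A S k a D R r H y
  have hNX : repl c0 M a D R y ∈ X :=
    H.hyp.cl M H.hM _ (hR3 [] (by simp))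
  have hNv : Valid c0 (repl c0 M a D R y) := H.hyp.val _ hNX
  generalize repl c0 M a D R y = N at *
  obtain ⟨hF, -, hexh⟩ := hNFA M hM w _ A S H.cs
  have hdir := H.cs.dir
  have hsucc := H.cs.succ
  have hAmono : ∀ i j, i ≤ j → A i ⊆ A j := by
    intro i j hij
    induction j, hij using Nat.le_induction with
    | base => exact Subset.rfl
    | succ j _ ih =>
      rw [hsucc j]
      exact ih.trans subset_union_left
  have hwmono : ∀ i j, i ≤ j → w (A j) ⊆ w (A i) := fun i j hij =>
    hdir.2 _ _ (hF j).1 (hAmono i j hij)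
  have hwdisj : ∀ i, Disjoint (w (A i)) (A i) := fun i => (hdir.1 _ (hF i).1).disj
  have hAD : ∀ m i, Disjoint (A m) (D i) := by
    intro m i
    have h0 : Disjoint (D i) (A (k i + 1)) := (H.lev i).1.disj
    induction m with
    | zero => exact (h0.mono_right (hAmono 0 _ (Nat.zero_le _))).symm
    | succ m ih =>
      rcases le_or_gt (m + 1) (k i + 1) with h | h
      · exact (h0.mono_right (hAmono _ _ h)).symm
      · rw [hsucc m, Set.disjoint_union_left]
        refine ⟨ih, ?_⟩
        rw [Set.disjoint_left]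
        intro x hx hxD
        have h1 : x ∈ w (A (k i + 1)) := hwmono _ _ (by omega) ((hF m).2.2.2.2.1 hx)
        exact (H.lev i).2.2 ((H.lev i).1.eq_of_inter hM (hdir.1 _ (hF _).1) hxD h1)
  have hSA : ∀ m, S m ⊆ A (m + 1) := by
    intro m
    rw [hsucc m]
    exact subset_union_right
  obtain ⟨hPn, hSfin, hSne, hSsub, hSd, -, hSw, hNbS, hNbA⟩ := (hF n).2
  -- the next set in `M`
  obtain ⟨-, -, hnx3, hnx4⟩ := H.cs.next n
  have hAS : A n ∪ S n = A (n + 1) := (hsucc n).symm
  refine ⟨hSfin, ?_, ?_, ?_⟩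
  · rw [hw'A n]; exact hSsub
  · rw [hAS, hw'A, hw'A, hR2, hR2]
    rw [hAS] at hnx3
    exact hnx3
  · intro B hBfin hBsub hBdis
    rw [hw'A n] at hBsub
    rw [hw'A n, hR2] at hBdis
    -- a late index
    obtain ⟨m, hnm, hBm⟩ : ∃ m, n + 1 ≤ m ∧ Disjoint B (w (A m)) := by
      have h1 : ∀ x, ∃ i, ∀ j, i ≤ j → x ∉ w (A j) := by
        intro x
        obtain ⟨i, hi⟩ := hexh x
        exact ⟨i, fun j hj h => hi (hwmono i j hj h)⟩
      choose f hf using h1
      obtain ⟨m0, hm0⟩ := (hBfin.image f).bddAbove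
      refine ⟨max m0 (n + 1), le_max_right _ _, ?_⟩
      rw [Set.disjoint_left]
      intro x hx hxw
      exact hf x _ ((hm0 (mem_image_of_mem f hx)).trans (le_max_left _ _)) hxw
    have hAnB : (A n ∪ B).Finite := (hF n).1.union hBfin
    have hUcp : IsCp N (A n ∪ B) (w' (A n ∪ B)) := hw'.1 _ hAnB
    have hwmU : w (A m) ⊆ w' (A n ∪ B) := by
      refine hw'sub _ hAnB m ?_
      rw [Set.disjoint_union_left]
      exact ⟨((hwdisj m).mono_right (hAmono n m (by omega))).symm, hBm⟩
    -- the list of fixed marks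
    obtain ⟨kA, hkA, -, -⟩ := exists_list (hF n).1
    obtain ⟨kS, hkS, -, -⟩ := exists_list hSfin
    obtain ⟨kT, hkT, -, -⟩ := exists_list (hF m).2.2.1
    obtain ⟨β, hβ, hβnd, hβlen⟩ := exists_list hBfin
    have hbf : bf M N univ univ b (dg (kA ++ (kS ++ kT))) := by
      refine hR3 _ ?_
      intro z hz i _
      have h1 : z ∈ ms kA ∨ z ∈ ms kS ∨ z ∈ ms kT := by simpa using hz
      rw [hkA, hkS, hkT] at h1
      rcases h1 with h1 | h1 | h1
      · exact Set.disjoint_left.1 (hAD n i) h1
      · exact Set.disjoint_left.1 (hAD (n + 1) i) (hSA n h1)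
      · exact Set.disjoint_left.1 (hAD (m + 1) i) (hSA m h1)
    have hbf1 : bf M N univ univ (Rk.lim om) (dg (kA ++ (kS ++ kT))) :=
      RLe.lim _ _ _ _ _ _ (H.hyp.base _ _ _ _ _ hbf)
    obtain ⟨x, hxlen, -, hbf2⟩ := lim_ext' hbf1 β (by simp)
    set p := x.zip β ++ dg (kA ++ (kS ++ kT)) with hp
    have hPI : PI M N p := bf_PI hbf2
    have hpA : ∀ z ∈ A n, (z, z) ∈ p := by
      intro z hz
      rw [hp, List.mem_append]
      refine Or.inr (mem_dg.2 ⟨rfl, ?_⟩)
      have : z ∈ ms kA := by rw [hkA]; exact hz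
      simp only [List.mem_append]
      exact Or.inl this
    have hpS : ∀ z ∈ S n, (z, z) ∈ p := by
      intro z hz
      rw [hp, List.mem_append]
      refine Or.inr (mem_dg.2 ⟨rfl, ?_⟩)
      have : z ∈ ms kS := by rw [hkS]; exact hz
      simp only [List.mem_append]
      exact Or.inr (Or.inl this)
    have hpT : ∀ z ∈ S m, (z, z) ∈ p := by
      intro z hz
      rw [hp, List.mem_append]
      refine Or.inr (mem_dg.2 ⟨rfl, ?_⟩)
      have : z ∈ ms kT := by rw [hkT]; exact hz
      simp only [List.mem_append]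
      exact Or.inr (Or.inr this)
    -- marks outside `B` are not in `x`
    have hxnot : ∀ z, (z, z) ∈ p → z ∉ B → z ∉ x := by
      intro z hz hzB hzx
      obtain ⟨i, hi, rfl⟩ := List.getElem_of_mem hzx
      have hi' : i < β.length := by rw [← hxlen]; exact hi
      have h1 : (x[i], β[i]) ∈ p := by
        rw [hp, List.mem_append]
        refine Or.inl ?_
        have h2 : (x.zip β)[i]'(by rw [List.length_zip]; omega) = (x[i], β[i]) :=
          List.getElem_zip
        rw [← h2]
        exact List.getElem_mem _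
      have h3 := (hPI.1 _ h1 _ hz).1 rfl
      have h4 : β[i] = x[i] := h3
      apply hzB
      rw [← hβ, ← h4]
      exact List.getElem_mem _
    have hAB : ∀ z ∈ A n, z ∉ B := by
      intro z hz hzB
      exact Set.disjoint_left.1 (hwdisj n) (hBsub hzB) hz
    have hTm : S m ⊆ w (A m) := (hF m).2.2.2.2.1
    have hTB : ∀ z ∈ S m, z ∉ B := fun z hz hzB => Set.disjoint_left.1 hBm hzB (hTm hz)
    have hTA : ∀ z ∈ S m, z ∉ A n := fun z hz hzA =>
      Set.disjoint_left.1 (hF m).2.2.2.2.2.1 hz (hAmono n m (by omega) hzA)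
    obtain ⟨s, hs⟩ := (hF m).2.2.2.1
    -- transfer of connections from `M` to `N`
    have htr : ∀ (K : List ℕ), ms K ⊆ A n → ∀ u v, (u, u) ∈ p → (v, v) ∈ p →
        Conn M (ms K ∪ ms x) u v → Conn N (ms K ∪ B) u v := by
      intro K hK u v hu hv hc
      have h1 := hCTR M N univ univ p (K ++ x) (K ++ β) u u v v hbf2
        (by rw [List.length_append, List.length_append, hxlen]) (by
          intro z hz
          rw [List.zip_append rfl, List.mem_append] at hz
          rcases hz with hz | hz
          · rw [← dg_eq_zip] at hz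
            obtain ⟨h2, h3⟩ := mem_dg.1 hz
            have h4 := hpA z.1 (hK h3)
            have h5 : z = (z.1, z.1) := Prod.ext rfl h2.symm
            rw [h5]; exact h4
          · rw [hp, List.mem_append]; exact Or.inl hz) hu hv (mem_univ _) (mem_univ _)
        (by
          rw [compl_univ, empty_union, ms_append]
          exact hc)
      rwa [compl_univ, empty_union, ms_append, hβ] at h1
    have htr' : ∀ u v, (u, u) ∈ p → (v, v) ∈ p →
        Conn N (A n ∪ B) u v → Conn M (A n ∪ ms x) u v := by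
      intro u v hu hv hc
      have hswap : ∀ z w : ℕ, (z, w) ∈ p → (w, z) ∈ p.map Prod.swap := fun z w h =>
        List.mem_map.2 ⟨(z, w), h, rfl⟩
      have h1 := hCTR N M univ univ (p.map Prod.swap) (kA ++ β) (kA ++ x) u u v v
        (bf_symm hbf2)
        (by rw [List.length_append, List.length_append, hxlen]) (by
          intro z hz
          rw [List.zip_append rfl, List.mem_append] at hz
          rcases hz with hz | hz
          · rw [← dg_eq_zip] at hz
            obtain ⟨h2, h3⟩ := mem_dg.1 hz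
            have h3' : z.1 ∈ A n := by rw [← hkA]; exact h3
            have h5 : z = (z.1, z.1) := Prod.ext rfl h2.symm
            rw [h5]; exact hswap _ _ (hpA z.1 h3')
          · rw [← swap_zip] at hz
            obtain ⟨z', hz', rfl⟩ := List.mem_map.1 hz
            refine List.mem_map.2 ⟨z', ?_, rfl⟩
            rw [hp, List.mem_append]; exact Or.inl hz')
        (hswap _ _ hu) (hswap _ _ hv) (mem_univ _) (mem_univ _)
        (by
          rw [compl_univ, empty_union, ms_append, hkA, hβ]
          exact hc)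
      rwa [compl_univ, empty_union, ms_append, hkA] at h1
    -- (i)
    have hi : ∀ q ∈ Nb M (w (A n)) \ Dm M w, ∀ t ∈ S m,
        ¬ Conn M ((A n \ {q}) ∪ ms x) q t := by
      intro q hq t ht hc
      have hqA : q ∈ A n := hNbA hq.1
      obtain ⟨K, hK, -, -⟩ := exists_list (((hF n).1).subset (sdiff_subset (t := {q})))
      have h1 : Conn N (ms K ∪ B) q t := by
        refine htr K (by rw [hK]; exact sdiff_subset) q t (hpA q hqA) (hpT t ht) ?_
        rw [hK]; exact hc
      rw [hK] at h1
      have htU : t ∈ w' (A n ∪ B) := hwmU (hTm ht)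
      have hqU : q ∉ w' (A n ∪ B) := fun h => Set.disjoint_left.1 hUcp.disj h (Or.inl hqA)
      obtain ⟨z, hz, hzA, -, -⟩ := (h1.symm hNv).exit hNv htU hqU
      have hz2 := hUcp.nb hNv hz
      have hzq : z = q := by
        by_contra hne
        rcases hz2 with h2 | h2
        · exact hzA (Or.inl ⟨h2, hne⟩)
        · exact hzA (Or.inr h2)
      rw [hzq] at hz
      exact Set.disjoint_left.1 hBdis hz hq
    -- (ii)
    set B1 : Set ℕ := ms x ∩ (w (A n) \ w (A (m + 1))) with hB1
    have hB1fin : B1.Finite := (ms_finite x).subset inter_subset_left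
    have hV : IsCp M (A n ∪ B1) (w (A n ∪ B1)) := hdir.1 _ ((hF n).1.union hB1fin)
    have hVn : w (A n ∪ B1) ⊆ w (A n) := hdir.2 _ _ ((hF n).1.union hB1fin) subset_union_left
    have hlV : w (A (m + 1)) ⊆ w (A n ∪ B1) := by
      have hfin3 : (A n ∪ B1 ∪ A (m + 1)).Finite := ((hF n).1.union hB1fin).union (hF _).1
      obtain ⟨z, hz⟩ := (hdir.1 _ hfin3).nonempty
      refine ((hdir.1 _ (hF (m + 1)).1).cd hM).subset hM hV ?_
        (hdir.2 _ _ hfin3 subset_union_right hz) (hdir.2 _ _ hfin3 subset_union_left hz)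
      rw [Set.disjoint_union_right]
      refine ⟨(hwdisj _).mono_right (hAmono _ _ (by omega)), ?_⟩
      rw [Set.disjoint_left]
      intro z hz hz1
      exact hz1.2.2 hz
    have hTS : Nb M (w (A (m + 1))) \ Dm M w = S m := (hF m).2.2.2.2.2.2.2.2.1
    have hdisV : Disjoint (Nb M (w (A n ∪ B1))) (Nb M (w (A n)) \ Dm M w) := by
      rw [Set.disjoint_left]
      intro q hqV hq
      have hqA : q ∈ A n := hNbA hq.1
      obtain ⟨hqV1, z, hz, hE⟩ := hqV
      have hzl : z ∉ w (A (m + 1)) := by
        intro hzl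
        have h1 : q ∈ Nb M (w (A (m + 1))) :=
          ⟨fun h => Set.disjoint_left.1 (hwdisj (m + 1)) h (hAmono _ _ (by omega) hqA), z, hzl, hE⟩
        have h2 : q ∈ S m := by rw [← hTS]; exact ⟨h1, hq.2⟩
        exact hTA q h2 hqA
      obtain ⟨t, ht⟩ := (hdir.1 _ (hF (m + 1)).1).nonempty
      have hc := (hV.cd hM).2 z hz t (hlV ht)
      obtain ⟨v, v', hv, hv', hv'V, hvE, hzv, -⟩ :=
        hc.exit' (D := (w (A (m + 1)))ᶜ) hzl (fun h => h ht)
      have hv'l : v' ∈ w (A (m + 1)) := by
        by_contra h; exact hv' h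
      have hvV : v ∈ w (A n ∪ B1) := by
        by_contra h
        exact hzv.not_right (Or.inl h)
      have hvS : v ∈ S m := by
        rw [← hTS]
        refine ⟨⟨hv, v', hv'l, hvE⟩, fun h => ?_⟩
        exact Set.disjoint_left.1 hV.disj hvV (Or.inl (hPn h))
      have hsub : A n ∪ ms x ⊆ (w (A n ∪ B1))ᶜ ∪ (w (A (m + 1)))ᶜᶜ := by
        rintro u (hu | hu)
        · exact Or.inl fun h => Set.disjoint_left.1 hV.disj h (Or.inl hu)
        · by_cases hul : u ∈ w (A (m + 1))
          · exact Or.inr fun h => h hul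
          · refine Or.inl fun h => ?_
            exact Set.disjoint_left.1 hV.disj h (Or.inr ⟨hu, hVn h, hul⟩)
      have hcz : Conn M (A n ∪ ms x) z v := hzv.mono hsub
      refine hi q hq v hvS ?_
      have hqx : q ∉ x := hxnot q (hpA q hqA) (hAB q hqA)
      have hsub2 : (A n \ {q}) ∪ ms x ⊆ A n ∪ ms x := union_subset_union_left _ sdiff_subset
      refine (Conn.single ?_ hE fun h => hcz.not_left (hsub2 h)).trans (hcz.mono hsub2)
      rintro (h | h)
      · exact h.2 rfl
      · exact hqx h
    obtain ⟨hle, hcl⟩ := hnx4 B1 hB1fin (fun z hz => hz.2.1) hdisV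
    have hle1 : B1.ncard ≤ (ms x).ncard := Set.ncard_le_ncard inter_subset_left (ms_finite x)
    have hle2 : (ms x).ncard ≤ x.length := by
      have : ms x = ((x.toFinset : Finset ℕ) : Set ℕ) := by
        ext z; simp
      rw [this, Set.ncard_coe_finset]
      exact List.toFinset_card_le x
    have hxB : x.length = B.ncard := by rw [hxlen, hβlen]
    refine ⟨by omega, fun hcard => ?_⟩
    -- (iii)
    have hB1x : B1 = ms x := Set.eq_of_subset_of_ncard_le inter_subset_left
      (by omega) (ms_finite x)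
    have hVsub : w (A n ∪ B1) ⊆ w (A (n + 1)) := by
      have := hcl (by omega)
      rwa [hAS] at this
    rw [hAS, hw'A]
    intro z hz
    by_contra hzn
    obtain ⟨t, ht⟩ := (hdir.1 _ (hF m).1).nonempty
    have htn : t ∈ w (A (n + 1)) := hwmono _ _ (by omega) ht
    obtain ⟨s', hs', hs'U, -, -⟩ := ((hUcp.cd hNv).2 t (hwmU ht) z hz).exit hNv htn hzn
    have hs'U' : s' ∈ w' (A n ∪ B) := by
      by_contra h; exact hs'U h
    have hs'S : s' ∈ S n := by
      rw [← hNbS, ← hR2]
      exact ⟨hs', fun h => Set.disjoint_left.1 hUcp.disj hs'U' (Or.inl (hPn h))⟩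
    have hc1 : Conn N (A n ∪ B) s' s := by
      refine ((hUcp.cd hNv).2 s' hs'U' s (hwmU (hTm hs))).mono ?_
      intro u hu h
      exact Set.disjoint_left.1 hUcp.disj h hu
    have hc2 : Conn M (A n ∪ B1) s' s := by
      rw [hB1x]
      exact htr' s' s (hpS s' hs'S) (hpT s hs) hc1
    have hsV : s ∈ w (A n ∪ B1) := by
      by_contra h
      have h1 : s ∈ Nb M (w (A (m + 1))) := by
        have : s ∈ Nb M (w (A (m + 1))) \ Dm M w := by rw [hTS]; exact hs
        exact this.1
      obtain ⟨-, u, hu, hE⟩ := h1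
      exact hc2.not_right (hV.nb hM ⟨h, u, hlV hu, hE⟩)
    have hs'V : s' ∈ w (A n ∪ B1) := by
      rw [hV.eq_cp hM hsV]
      exact hc2.symm hM
    exact Set.disjoint_left.1 hSw hs'S (hVsub hs'V)

end Pool.Agent.TK
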