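import Pool.Agent.H16.TK.Stmt2

/-!
PTH, NE1, NUN: paths are finite; existence and uniqueness of separators.
-/

set_option autoImplicit false

open Set

namespace Pool.Agent.TK

theorem pf_PTH {C : Type} {c0 : C} : PTH C c0 := by
  intro M hM D v q hc
  obtain ⟨h1, h2⟩ := hc
  induction h2 with
  | refl => exact ⟨∅, finite_empty, empty_subset _, fun E hv hq => (hq hv).elim⟩
  | tail hb hs ih =>
    rename_i b c
    obtain ⟨F, hF, hFD, hFE⟩ := ih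
    have hcD : c ∈ D := by by_contra h; exact hs.2 h
    refine ⟨insert c F, hF.insert c, insert_subset hcD hFD, ?_⟩
    intro E hv hc
    by_cases hbE : b ∈ E
    · exact ⟨c, ⟨hc, b, hbE, by rw [hM.1]; exact hs.1⟩, mem_insert _ _⟩
    · obtain ⟨x, hx, hxF⟩ := hFE E hv hbE
      exact ⟨x, hx, mem_insert_of_mem _ hxF⟩

theorem pf_NE1 {C : Type} {c0 : C} : NE1 C c0 := by
  intro M hM w hw P A hA hPA hDP
  have hcA : IsCp M A (w A) := hw.1 A hA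
  have hQA : Nb M (w A) \ P ⊆ A := fun q hq => hcA.nb hM hq.1
  have hQfin : (Nb M (w A) \ P).Finite := hA.subset hQA
  have h1 : ∀ q ∈ Nb M (w A) \ P, ∃ Aq : Set ℕ, Aq.Finite ∧ q ∈ Aq ∧ q ∉ Nb M (w Aq) := by
    intro q hq
    have : q ∉ Dm M w := fun h => hq.2 (hDP h)
    unfold Dm at this
    simp only [mem_ofPred_eq, not_forall] at this
    obtain ⟨Aq, h2, h3, h4⟩ := this
    exact ⟨Aq, h2, h3, h4⟩
  choose! f hf1 hf2 hf3 using h1
  set B' : Set ℕ := ⋃ q ∈ Nb M (w A) \ P, f q with hB'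
  have hB'fin : B'.Finite := hQfin.biUnion hf1
  have hBfin : (w A ∩ B').Finite := hB'fin.subset inter_subset_right
  refine ⟨w A ∩ B', hBfin, inter_subset_left, ?_⟩
  have hcB : IsCp M (A ∪ w A ∩ B') (w (A ∪ w A ∩ B')) := hw.1 _ (hA.union hBfin)
  have hcB' : IsCp M (A ∪ B') (w (A ∪ B')) := hw.1 _ (hA.union hB'fin)
  have hle : w (A ∪ w A ∩ B') ⊆ w A := hw.2 _ _ (hA.union hBfin) subset_union_left
  have hle2 : w (A ∪ B') ⊆ w (A ∪ w A ∩ B') :=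
    hw.2 _ _ (hA.union hB'fin) (union_subset_union_right _ inter_subset_right)
  have hsub : w (A ∪ w A ∩ B') ⊆ w (A ∪ B') := by
    obtain ⟨x, hx⟩ := hcB'.nonempty
    refine (hcB.cd hM).subset hM hcB' ?_ (hle2 hx) hx
    rw [Set.disjoint_left]
    rintro z hz (hzA | hzB)
    · exact Set.disjoint_left.1 hcB.disj hz (Or.inl hzA)
    · exact Set.disjoint_left.1 hcB.disj hz (Or.inr ⟨hle hz, hzB⟩)
  rw [Set.disjoint_left]
  rintro q ⟨-, s, hs, hE⟩ hq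
  have hAq : f q ⊆ A ∪ B' := fun z hz => Or.inr (mem_biUnion hq hz)
  refine hf3 q hq ⟨?_, s, hw.2 _ _ (hA.union hB'fin) hAq (hsub hs), hE⟩
  intro h
  exact Set.disjoint_left.1 (hw.1 _ (hf1 q hq)).disj h (hf2 q hq)

theorem pf_NUN {C : Type} {c0 : C} (hNMI : NMI C c0) : NUN C c0 := by
  intro M hM w hw P A S S' hA _ hS hS'
  have h1 : S = Nb M (w (A ∪ S)) ∩ w A :=
    hNMI M hM w hw P A S hA ⟨hS.1, hS.2.1, hS.2.2.1⟩
      (fun B hB => (hS.2.2.2 B hB.1 hB.2.1 hB.2.2).1)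
  have h2 : S' = Nb M (w (A ∪ S')) ∩ w A :=
    hNMI M hM w hw P A S' hA ⟨hS'.1, hS'.2.1, hS'.2.2.1⟩
      (fun B hB => (hS'.2.2.2 B hB.1 hB.2.1 hB.2.2).1)
  obtain ⟨h3, h4⟩ := hS.2.2.2 S' hS'.1 hS'.2.1 hS'.2.2.1
  obtain ⟨h5, h6⟩ := hS'.2.2.2 S hS.1 hS.2.1 hS.2.2.1
  have h7 : w (A ∪ S') = w (A ∪ S) := Subset.antisymm (h4 (by omega)) (h6 (by omega))
  rw [h1, h2, h7]

end Pool.Agent.TK
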