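import Pool.Agent.H16.TK.Stmt2

/-!
RP1: replacement of one infinite flap by an equivalent one.
-/

set_option autoImplicit false

open Set

namespace Pool.Agent.TK

theorem pf_RP1 {C : Type} {c0 : C} (hTRA : TRA C c0) (hRPF : RPF C c0) (hCOMP : COMP C c0)
    (hCTR : CTR C) (hINF : INF C) : RP1 C c0 := by
  intro r hom M b D' hM hD' hD'inf N c v hN hv hF
  have hinf2 : (cp N (ms c) v).Infinite := ((hINF _ _ _ _ _ _ (hF.mono hom)).1).1 hD'inf
  obtain ⟨R, hR, hRcp, hRFI, hRPI⟩ := hTRA M N b c D' (cp N (ms c) v) hM hN (isCp_cp hv) hinf2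
    hD'inf hD'.disj hF.1 (bf_PI hF.2)
  have hRD : RD c0 M (fun _ => b) (fun _ => D') (fun _ => R) ({0} : Set ℕ) :=
    { val := hM
      valR := fun _ _ => hR
      cpM := fun _ _ => hD'
      cpR := fun _ _ => hRcp
      pi := fun _ _ => hRPI
      disj := fun i hi j hj hij => (hij (by rw [mem_singleton_iff.1 hi, mem_singleton_iff.1 hj])).elim
      disjA := fun _ _ _ _ => hD'.disj.symm }
  obtain ⟨hV, he1, he2, -, -, hcp, hFI⟩ := hRPF _ _ _ _ _ hRD
  generalize repl c0 M (fun _ => b) (fun _ => D') (fun _ => R) ({0} : Set ℕ) = M' at *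
  have h0 : (0 : ℕ) ∈ ({0} : Set ℕ) := rfl
  have hcp0 : IsCp M' (ms b) D' := hcp 0 h0
  have hFI0 : FI M' b D' R b D' := hFI 0 h0
  have he1' : ∀ u v, u ∉ D' → v ∉ D' → M'.1 u v = M.1 u v := fun u v hu hv =>
    he1 u v (fun _ _ => hu) (fun _ _ => hv)
  have he2' : ∀ l : List ℕ, (∀ u ∈ l, u ∉ D') → M'.2 l = M.2 l := fun l hl =>
    he2 l (fun u hu _ _ => hl u hu)
  have hFB : FB r M b D' M' b D' := (hF.trans (hRFI.fb r).symm).trans (hFI0.fb r).symm
  have hbf : bf M M' D' D' r (dg b) := by rw [dg_eq_zip]; exact hFB.2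
  have hcomp : ∀ (U : Set ℕ), (D' ⊆ U ∨ Disjoint D' U) → ∀ k : List ℕ, (∀ z ∈ k, z ∉ D') →
      bf M M' U U r (dg k) := by
    intro U hU k hk
    exact hCOMP M M' ({0} : Set ℕ) (fun _ => b) (fun _ => D') r hM hV
      (fun i hi j hj hij => (hij (by rw [mem_singleton_iff.1 hi, mem_singleton_iff.1 hj])).elim)
      (fun _ _ _ _ => hD'.disj.symm) (fun _ _ => hD'.nb hM) (fun _ _ => hcp0.nb hV)
      (fun u v hu hv => (he1' u v (hu 0 h0) (hv 0 h0)).symm)
      (fun l hl => (he2' l (fun u hu => hl u hu 0 h0)).symm) (fun _ _ => hbf) U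
      (fun _ _ => hU) k (fun z hz _ _ => hk z hz)
  have hnb : Nb M' D' = Nb M D' := by
    have hbo : bf M M' D' D' om (dg b) := hom _ _ _ _ _ hbf
    ext u
    constructor
    · intro hu
      have hub : u ∈ ms b := hcp0.nb hV hu
      obtain ⟨hu1, s, hs, hE⟩ := hu
      obtain ⟨x, hx, hxD, hbz⟩ := lim_ext' hbo [s] (by simpa using hs)
      obtain ⟨s', rfl⟩ := List.length_eq_one_iff.1 (by simpa using hx)
      have hPI := bf_PI hbz
      refine ⟨hu1, s', hxD s' (by simp), ?_⟩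
      have := hPI.2.1 (u, u) (List.mem_append_right _ (mem_dg.2 ⟨rfl, hub⟩)) (s', s) (by simp)
      rw [show M.1 u s' = M'.1 u s from this]
      exact hE
    · intro hu
      have hub : u ∈ ms b := hD'.nb hM hu
      obtain ⟨hu1, s, hs, hE⟩ := hu
      obtain ⟨y, hy, hyD, hbz⟩ := lim_ext hbo [s] (by simpa using hs)
      obtain ⟨s', rfl⟩ := List.length_eq_one_iff.1 (by simpa using hy)
      have hPI := bf_PI hbz
      refine ⟨hu1, s', hyD s' (by simp), ?_⟩
      have := hPI.2.1 (u, u) (List.mem_append_right _ (mem_dg.2 ⟨rfl, hub⟩)) (s, s') (by simp)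
      rw [← show M.1 u s = M'.1 u s' from this]
      exact hE
  refine ⟨M', hV, hcp0, hFI0.trans hRFI, hbf, hnb, he1', he2', ?_⟩
  intro a D hD hsub
  refine ⟨?_, hcomp D (Or.inl hsub) a (fun z hz hz' =>
    Set.disjoint_left.1 hD.disj (hsub hz') hz)⟩
  rw [isCp_iff hV]
  refine ⟨?_, hD.disj, ?_⟩
  · -- connectedness
    have hin : ∀ u ∈ D', ∀ v ∈ D', Conn M' Dᶜ u v := fun u hu v hv =>
      ((hcp0.cd hV).2 u hu v hv).mono (compl_subset_compl.2 hsub)
    have hout : ∀ u ∈ D, u ∉ D' → ∀ v ∈ D, v ∉ D' → Conn M' Dᶜ u v := by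
      intro u hu hu' v hv hv'
      have h1 : bf M M' D D om (dg [u, v]) := hom _ _ _ _ _
        (hcomp D (Or.inl hsub) [u, v] (by
          intro z hz
          simp only [List.mem_cons, List.not_mem_nil, or_false] at hz
          rcases hz with rfl | rfl
          · exact hu'
          · exact hv'))
      have h2 := hCTR M M' D D (dg [u, v]) [] [] u u v v h1 rfl (by simp)
        (mem_dg.2 ⟨rfl, by simp⟩) (mem_dg.2 ⟨rfl, by simp⟩) hu hv
        (((hD.cd hM).2 u hu v hv).mono (by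
          intro z hz
          rcases hz with hz | hz
          · exact hz
          · exact absurd hz (by simp)))
      refine h2.mono ?_
      exact subset_union_left
    refine ⟨hD.nonempty, ?_⟩
    by_cases hex : ∃ x ∈ D, x ∉ D'
    · obtain ⟨x, hx, hx'⟩ := hex
      obtain ⟨d, hd⟩ := hD'.nonempty
      obtain ⟨x0, hx0, hx0D, -, -⟩ := ((hD.cd hM).2 d (hsub hd) x hx).exit hM hd hx'
      have hx0D' : x0 ∈ D := by by_contra h; exact hx0D h
      rw [← hnb] at hx0
      obtain ⟨hx01, d0, hd0, hE⟩ := hx0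
      have key : ∀ u ∈ D, Conn M' Dᶜ u d0 := by
        intro u hu
        by_cases hu' : u ∈ D'
        · exact hin u hu' d0 hd0
        · exact (hout u hu hu' x0 hx0D' hx01).step hE (fun h => h (hsub hd0))
      intro u hu v hv
      exact (key u hu).trans ((key v hv).symm hV)
    · push Not at hex
      intro u hu v hv
      exact hin u (hex u hu) v (hex v hv)
  · -- neighbours
    rintro u ⟨hu, s, hs, hE⟩
    have hu' : u ∉ D' := fun h => hu (hsub h)
    by_cases hs' : s ∈ D'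
    · have h1 : u ∈ Nb M' D' := ⟨hu', s, hs', hE⟩
      rw [hnb] at h1
      obtain ⟨-, s2, hs2, hE2⟩ := h1
      exact hD.nb hM ⟨hu, s2, hsub hs2, hE2⟩
    · rw [he1' u s hu' hs'] at hE
      exact hD.nb hM ⟨hu, s, hs, hE⟩

end Pool.Agent.TK
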